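import Mathlib
import Pool.Agent.H11.PP.Stk
import Pool.Graph.R_pool_sql_team_seeded_c8625f6e.K4H26.TC.Mod

/-!
# Stark's conjecture: reduction to the basic characters

The definitions are in `Pool.Agent.H11.PP.Defs` (basic characters), `Pool.Agent.H11.PP.Stk`,
`Pool.Agent.K4H74.SC.Core` and `Pool.Agent.K4H77.SL.Def` (Stark's conjecture; `S` is the set of the
infinite places). No case of the conjecture is assumed.
-/

set_option autoImplicit false

namespace Pool.Agent.Results.MP_46b841_nt.BasicCharacters

open NumberField Pool.Agent.H11.PP Pool.Agent.K4H74 Pool.Agent.K4H74.SK Pool.Agent.K4H26.TC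

/-- Let `c` be a system of leading coefficients at `s = 0` of the Artin L-functions (such systems
exist; by Brauer's theorem on the meromorphic continuation, the only one is `L*(0, χ)`), and let
`σ` be an automorphism of `ℂ`. Every character `χ` of every Galois group has exactly one defect
`d(χ)`: `A(χ, φ)^σ = d(χ) A(χ^σ, φ)` for all `φ`. Stark's conjecture for `χ` says `d(χ) = 1`.

Let `E` be a finite Galois extension `N / K` of number fields and let `H` be any group of complex
numbers which contains the defects of the faithful linear characters over the base field `K` (for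
`K = ℚ` they are known to be `1`) and of the basic characters of the Galois groups over the fields
between `K` and `N`. Then `H` contains the defects of all characters of the Galois groups over the
fields between `K` and `N`. A basic character is a faithful irreducible character of degree `n > 1`
of a group, all of whose quotients by nonabelian normal subgroups are elementary, which is not
induced from a nonlinear character of a proper subgroup; and its degree `n` is a power of a prime
number if the group is solvable. -/
theorem result : (∃ c : Pair → ℂ, IsLeading c) ∧ ∀ c : Pair → ℂ, IsLeading c → ∀ σ : ℂ ≃+* ℂ,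
    -- the defects
    (∀ (E : Ext) (χ : G E → ℂ), IsChr χ → ∃! d : ℂˣ, IsDefect c σ χ d) ∧
    ∀ (E : Ext) (H : Subgroup ℂˣ),
    -- `H` contains the defects of the faithful linear characters over the base field `K`
    (∀ (L : IntermediateField E.K E.L) [IsGalois E.K L] (ψ : G (Low E L) →* ℂˣ),
      Function.Injective ψ → In c σ H (lin ψ)) →
    -- `H` contains the defects of the basic characters over the fields between `K` and `N`
    (∀ (F : IntermediateField E.K E.L) (L : IntermediateField F E.L) [IsGalois F L] (n : ℕ)
      (χ : G (Mid E F L) → ℂ), Basic (G (Mid E F L)) n χ → In c σ H χ) →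
    -- `H` contains the defects of all characters over the fields between `K` and `N`
    ∀ (F : IntermediateField E.K E.L) (L : IntermediateField F E.L) [IsGalois F L]
      (χ : G (Mid E F L) → ℂ), IsChr χ → In c σ H χ := by
  refine ⟨exists_isLeading, fun c hc σ => ⟨fun E χ hχ => existsUnique_defect hc σ hχ, ?_⟩⟩
  intro E H ha hb F L _ χ hχ d hd
  refine (modH_iff hc σ H hχ hd).mp ?_
  have key := all_mem (K := E.K) (N := E.L) (modH hc σ H) ⊥ ?_ ?_ F L (isChr_iff.mp hχ)
  · exact Subgroup.mem_bot.mp key
  · intro L _ l hl
    rw [Subgroup.mem_bot]
    exact modH_one hc σ H (E := Low E L) (isChr_lin (E := Low E L) l) (ha L l hl)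
  · intro F L _ n χ hB
    rw [Subgroup.mem_bot]
    have h1 : IsChr (G := G (Mid E F L)) χ := by
      obtain ⟨⟨ρ, -, -, rfl⟩, -⟩ := hB
      exact isChr_iff.mpr ⟨_, inferInstance, inferInstance, inferInstance, ρ, rfl⟩
    exact modH_one hc σ H (E := Mid E F L) h1 (hb F L n χ hB)

end Pool.Agent.Results.MP_46b841_nt.BasicCharacters
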