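import Mathlib
import Pool.Agent.H99.Ov.Fin

/-!
# Stark's conjecture: which orders of vanishing suffice

The definitions are in `Pool.Agent.H99.Ov.Def`, `Pool.Agent.H99.Ov.Fin` (`Ample`),
`Pool.Agent.H37.Stk.Def` (`TorsionIn`, `TrivialOver`), `Pool.Agent.K4H74.ST.Inv` (invariants),
`Pool.Agent.K4H74.ST.Fin` (`TrivOne`, `TrivRational`, `TrivOdd`, `TrivMixed`),
`Pool.Agent.K4H74.SC.Core` and `Pool.Agent.K4H77.SL.Def` (Stark's conjecture; `S` is the set of the
infinite places).
-/

set_option autoImplicit false

namespace Pool.Agent.Results.MP_46b841_nt.OrdersThatSuffice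

open NumberField Pool.Agent.H99.Ov Pool.Agent.K4H74 Pool.Agent.K4H74.SK Pool.Agent.K4H26.TC

/-- **Which orders of vanishing suffice.** Let `D` be any set of natural numbers and `P` a set of
prime numbers (the case of all prime numbers is the most important one). An Artin invariant is a
rule which attaches to the characters of the Galois groups of number fields elements of an abelian
group, such that sums go to products and inflation and induction do not change the value; for
example the quotient `A(χ)^σ / A(χ^σ)` of Stark's conjecture. The order `ord K L ψ` of a nontrivial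
linear character `ψ` is the order of vanishing of its `L`-function at `s = 0`.

(1) The following are equivalent:
* every Artin invariant, with values in a group without elements of order `ℓ` for the prime numbers
  `ℓ` outside `P`, which is trivial on the trivial characters and on the nontrivial linear
  characters whose order is `0` or in `D`, is trivial on all characters;
* every such invariant which is trivial on the trivial characters, on the totally odd linear
  characters, on the faithful linear characters of the unramified at infinity cyclic extensions of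
  degree `4, 8, 16, ...` of the fields which are neither totally real nor totally complex, and on
  the linear characters over the totally complex fields of the degrees `2 d` with `d ∈ D`, is
  trivial on all characters;
* every such invariant which is trivial on the rational valued characters, on the characters of the
  extensions which are abelian over `ℚ`, on all linear characters over the fields with a real place,
  and on the linear characters over the totally complex fields of the degrees `2 d` with `d ∈ D`, is
  trivial on all characters;
* `Ample P D`: for every `m ≥ 1` the set `D` contains a positive multiple of `m` and, for `p ∈ P`,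
  a multiple `d` of `m` such that `d / m` is prime to `p`.
The last condition holds if `D` contains all large numbers; it does not hold if `D` is bounded.

(2) If `2 ∉ P`, then these conditions are also equivalent to: every such invariant which is trivial
on the trivial characters and on the linear characters over the totally complex fields of the
degrees `2 d` with `d ∈ D` is trivial on all characters.

(3) Stark's conjecture (`c` is the system of leading coefficients of the Artin L-functions at `0`;
every character `χ` has exactly one defect `d(χ)`, with `A(χ, φ)^σ = d(χ) A(χ^σ, φ)` for all `φ`).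
Let `Ample P D` hold. If a group `H` of complex numbers (closed under taking `ℓ`-th roots for the
prime numbers `ℓ` outside `P`) contains the defects of the trivial characters, which are known to
be `1`, and the defects of the nontrivial linear characters whose order is `0` (known to be `1`) or
in `D`, then it contains all defects. If `2 ∉ P`, then the linear characters over the totally complex
fields of the degrees `2 d`, with `d ∈ D`, suffice. In particular, for the set of all prime numbers:
if Stark's conjecture holds for the trivial characters and for the nontrivial linear characters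
whose order is `0` or in `D`, then it holds for all characters. -/
theorem result :
    -- (1) the criterion
    (∀ P D : Set ℕ, List.TFAE [
      Suff P fun A => ST.TrivOne A ∧ TrivOrders A D,
      Suff P fun A => ST.TrivOne A ∧ ST.TrivOdd A ∧ ST.TrivMixed A ∧ TrivDegrees A D,
      Suff P fun A => ST.TrivRational A ∧ TrivAbelian A ∧ TrivReal A ∧ TrivDegrees A D,
      Ample P D]) ∧
    -- (2) odd torsion
    (∀ P D : Set ℕ, 2 ∉ P → ((Suff P fun A => ST.TrivOne A ∧ TrivDegrees A D) ↔ Ample P D)) ∧
    -- (3) Stark's conjecture
    (∃ c : Pair → ℂ, IsLeading c) ∧ ∀ c : Pair → ℂ, IsLeading c → ∀ σ : ℂ ≃+* ℂ,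
      (∀ (E : Ext) (χ : G E → ℂ), IsChr χ → ∃! d : ℂˣ, IsDefect c σ χ d) ∧
      (∀ P D : Set ℕ, Ample P D →
        ∀ H : Subgroup ℂˣ, (∀ ℓ : ℕ, ℓ.Prime → ℓ ∉ P → ∀ x : ℂˣ, x ^ ℓ ∈ H → x ∈ H) →
          -- `H` contains the defects of the trivial characters (known to be `1`)
          (∀ (E : Ext) (d : ℂˣ), IsDefect c σ (E := E) (fun _ => 1) d → d ∈ H) →
          -- `H` contains the defects of the linear characters whose order is `0` or in `D` or,
          -- if `2 ∉ P`, of those over the totally complex fields of the degrees `2 d`
          ((∀ (E : Ext) (ψ : G E →* ℂˣ), ψ ≠ 1 → (ord E.K E.L ψ = 0 ∨ ord E.K E.L ψ ∈ D) →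
            ∀ d : ℂˣ, IsDefect c σ (lin ψ) d → d ∈ H) ∨
           (2 ∉ P ∧ ∀ (E : Ext) (ψ : G E →* ℂˣ), IsTotallyComplex E.K →
            (∃ d ∈ D, Module.finrank ℚ E.K = 2 * d) →
              ∀ d : ℂˣ, IsDefect c σ (lin ψ) d → d ∈ H)) →
          -- `H` contains all defects
          ∀ (E : Ext) (χ : G E → ℂ), IsChr χ → ∀ d : ℂˣ, IsDefect c σ χ d → d ∈ H) ∧
      ∀ D : Set ℕ, Ample Set.univ D →
        (∀ E : Ext, Stark c σ (E := E) (fun _ => 1)) →
        (∀ (E : Ext) (ψ : G E →* ℂˣ), ψ ≠ 1 → (ord E.K E.L ψ = 0 ∨ ord E.K E.L ψ ∈ D) →
          Stark c σ (lin ψ)) →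
        ∀ (E : Ext) (χ : G E → ℂ), IsChr χ → Stark c σ χ := by
  refine ⟨criterion, criterion_odd, exists_isLeading,
    fun c hc σ => ⟨fun E χ hχ => existsUnique_defect hc σ hχ, ?_, ?_⟩⟩
  · intro P D hPD H hH hone hD E χ hχ d hd
    refine (modH_iff hc σ H hχ hd).mp ?_
    have htors : Pool.Agent.H37.Stk.TorsionIn P (ℂˣ ⧸ H) := by
      intro ℓ hℓ hP x hx
      obtain ⟨x, rfl⟩ := QuotientGroup.mk_surjective x
      rw [← QuotientGroup.mk_pow, QuotientGroup.eq_one_iff] at hx
      exact (QuotientGroup.eq_one_iff _).mpr (hH ℓ hℓ hP x hx)
    rcases hD with hD | ⟨h2, hD⟩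
    · refine suff_orders hPD.pos hPD.rich _ htors (modH hc σ H) ⟨one_of hc σ H hone, ?_⟩ E.K E.L χ
        (isChr_iff.mp hχ)
      intro K L _ _ _ _ _ _ ψ hψ hord
      exact modH_one hc σ H (E := ⟨K, L⟩) (isChr_lin (E := ⟨K, L⟩) ψ) (hD ⟨K, L⟩ ψ hψ hord)
    · refine suff_degrees hPD.pos hPD.rich h2 _ htors (modH hc σ H) ⟨one_of hc σ H hone, ?_⟩ E.K
        E.L χ (isChr_iff.mp hχ)
      intro K L _ _ _ _ _ _ ψ hK hd
      exact modH_one hc σ H (E := ⟨K, L⟩) (isChr_lin (E := ⟨K, L⟩) ψ) (hD ⟨K, L⟩ ψ hK hd)
  · intro D hD hone hlin E χ hχ
    apply of_val hc σ hχ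
    refine suff_orders hD.pos hD.rich _ (fun ℓ _ h => absurd (Set.mem_univ ℓ) h) (inv hc σ)
      ⟨trivOne_of hc σ hone, ?_⟩ E.K E.L χ (isChr_iff.mp hχ)
    intro K L _ _ _ _ _ _ ψ hψ hord
    exact to_val hc σ (E := ⟨K, L⟩) (isChr_lin (E := ⟨K, L⟩) ψ) (hlin ⟨K, L⟩ ψ hψ hord)

end Pool.Agent.Results.MP_46b841_nt.OrdersThatSuffice
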