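import Mathlib
import Pool.Agent.H37.Stk.Exa
import Pool.Graph.R_pool_sql_team_seeded_c8625f6e.K4H74.SC.Lead
import Pool.Graph.R_pool_sql_team_seeded_c8625f6e.K4H74.SC.Wrap
import Pool.Graph.R_pool_sql_team_seeded_c8625f6e.K4H77.SL.Def
import Pool.Graph.R_pool_sql_team_seeded_c8625f6e.K4H26.TC.Mod

/-!
# Stark's conjecture: which families of number fields suffice

The definitions are in `Pool.Agent.H37.Stk.Def`, `Pool.Agent.K4H74.ST.Inv` (invariants),
`Pool.Agent.K4H74.SC.Core` and `Pool.Agent.K4H77.SL.Def` (Stark's conjecture; `S` is the set of the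
infinite places).
-/

set_option autoImplicit false

namespace Pool.Agent.Results.MP_46b841_nt.SufficientFamilies

open NumberField Pool.Agent.H37.Stk Pool.Agent.K4H74 Pool.Agent.K4H74.SK Pool.Agent.K4H26.TC

/-- **Which families of number fields suffice.** Let `𝔉` be any class of number fields and `P` a set
of prime numbers (the case of all prime numbers is the most important one). An Artin invariant is a
rule which attaches to the characters of the Galois groups of number fields elements of an abelian
group, such that sums go to products and inflation and induction do not change the value; for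
example the quotient `A(χ)^σ / A(χ^σ)` of Stark's conjecture.

(1) The following are equivalent:
* every Artin invariant, with values in a group without elements of order `ℓ` for the prime
  numbers `ℓ` outside `P`, which is trivial on all characters over the fields in `𝔉`, is trivial;
* every such invariant is trivial on the trivial character of `ℚ`;
* for `p ∈ P` and for `p = 1`, every algebraic extension `Ω` of `ℚ`, all of whose finite Galois
  extensions have a `p`-elementary Galois group (a cyclic one, for `p = 1`), contains a field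
  in `𝔉`;
* there is one finite Galois extension `L` of `ℚ` such that, for `p ∈ P` and for `p = 1`, the fixed
  fields of the `p`-elementary subgroups of the Galois group all contain fields in `𝔉`;
* finitely many fields in `𝔉` have the first property.

(2) Stark's conjecture (`c` is the system of leading coefficients of the Artin L-functions at `0`;
every character `χ` has exactly one defect `d(χ)`, with `A(χ, φ)^σ = d(χ) A(χ^σ, φ)` for all `φ`).
Let `𝔉` satisfy the third condition of (1) for all `Ω` which are not isomorphic to the field of all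
real algebraic numbers. If a group `H` of complex numbers (closed under taking `ℓ`-th roots for the
prime numbers `ℓ` outside `P`) contains the defects of the trivial characters, which are known to
be `1`, and the defects of the characters over the fields in `𝔉`, then it contains all defects.
In particular, for the set of all prime numbers: if Stark's conjecture holds for all characters over
the fields in `𝔉`, then it holds for all characters. -/
theorem result :
    -- (1) the criterion
    (∀ (P : Set ℕ) (𝔉 : Set NF), List.TFAE [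
      Suffices P 𝔉,
      SufficesQ P 𝔉,
      ∀ p, Adm P p → ∀ (Ω : Type) [Field Ω] [CharZero Ω] [Algebra.IsAlgebraic ℚ Ω],
        ProElem p Ω → Meets 𝔉 Ω,
      ∃ (L : Type) (_ : Field L) (_ : NumberField L) (_ : IsGalois ℚ L),
        ∀ p, Adm P p → LevelOK p 𝔉 L,
      ∃ T ⊆ 𝔉, T.Finite ∧ Suffices P T]) ∧
    -- (2) Stark's conjecture
    (∃ c : Pair → ℂ, IsLeading c) ∧ ∀ c : Pair → ℂ, IsLeading c → ∀ σ : ℂ ≃+* ℂ,
      (∀ (E : Ext) (χ : G E → ℂ), IsChr χ → ∃! d : ℂˣ, IsDefect c σ χ d) ∧
      (∀ (P : Set ℕ) (𝔉 : Set NF),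
        (∀ p, Adm P p → ∀ (Ω : Type) [Field Ω] [CharZero Ω] [Algebra.IsAlgebraic ℚ Ω],
          ProElem p Ω → IsEmpty (Ω ≃+* RealAlg) → Meets 𝔉 Ω) →
        ∀ H : Subgroup ℂˣ, (∀ ℓ : ℕ, ℓ.Prime → ℓ ∉ P → ∀ x : ℂˣ, x ^ ℓ ∈ H → x ∈ H) →
          -- `H` contains the defects of the trivial characters (known to be `1`)
          (∀ (E : Ext) (d : ℂˣ), IsDefect c σ (E := E) (fun _ => 1) d → d ∈ H) →
          -- `H` contains the defects of the characters over the fields in `𝔉`
          (∀ E : Ext, NF.mk E.K ∈ 𝔉 → ∀ χ : G E → ℂ, IsChr χ →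
            ∀ d : ℂˣ, IsDefect c σ χ d → d ∈ H) →
          -- `H` contains all defects
          ∀ (E : Ext) (χ : G E → ℂ), IsChr χ → ∀ d : ℂˣ, IsDefect c σ χ d → d ∈ H) ∧
      ∀ 𝔉 : Set NF,
        (∀ p, Adm Set.univ p → ∀ (Ω : Type) [Field Ω] [CharZero Ω] [Algebra.IsAlgebraic ℚ Ω],
          ProElem p Ω → IsEmpty (Ω ≃+* RealAlg) → Meets 𝔉 Ω) →
        (∀ E : Ext, Stark c σ (E := E) (fun _ => 1)) →
        (∀ E : Ext, NF.mk E.K ∈ 𝔉 → ∀ χ : G E → ℂ, IsChr χ → Stark c σ χ) →
        ∀ (E : Ext) (χ : G E → ℂ), IsChr χ → Stark c σ χ := by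
  refine ⟨criterion, exists_isLeading,
    fun c hc σ => ⟨fun E χ hχ => existsUnique_defect hc σ hχ, ?_, ?_⟩⟩
  · intro P 𝔉 h𝔉 H hH hone hF E χ hχ d hd
    refine (modH_iff hc σ H hχ hd).mp ?_
    refine trivial_of_real (P := P) h𝔉 ?_ (modH hc σ H) ?_ (one_of hc σ H hone) E.K E.L χ
      (isChr_iff.mp hχ)
    · intro ℓ hℓ hP x hx
      obtain ⟨x, rfl⟩ := QuotientGroup.mk_surjective x
      rw [← QuotientGroup.mk_pow, QuotientGroup.eq_one_iff] at hx
      exact (QuotientGroup.eq_one_iff _).mpr (hH ℓ hℓ hP x hx)
    · intro F hFF L _ _ _ _ χ hχ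
      have h1 : IsChr (G := G ⟨F.K, L⟩) χ := isChr_iff.mpr hχ
      exact modH_one hc σ H (E := ⟨F.K, L⟩) h1 (hF ⟨F.K, L⟩ hFF χ h1)
  · intro 𝔉 h𝔉 hone hF E χ hχ
    apply of_val hc σ hχ
    refine trivial_of_real (P := Set.univ) h𝔉 (fun ℓ _ h => absurd (Set.mem_univ ℓ) h) (inv hc σ) ?_
      (trivOne_of hc σ hone) E.K E.L χ (isChr_iff.mp hχ)
    intro F hFF L _ _ _ _ χ hχ
    have h1 : IsChr (G := G ⟨F.K, L⟩) χ := isChr_iff.mpr hχ
    exact to_val hc σ (E := ⟨F.K, L⟩) h1 (hF ⟨F.K, L⟩ hFF χ h1)

end Pool.Agent.Results.MP_46b841_nt.SufficientFamilies
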