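import Mathlib
import Pool.Agent.H11.PP.Stk2
import Pool.Graph.R_pool_sql_team_seeded_c8625f6e.K4H26.TC.Mod

/-!
# Stark's conjecture for solvable extensions: which degrees suffice

The definitions are in `Pool.Agent.H11.PP.Degs` (`Fam`), `Pool.Agent.H11.PP.Stk` (`In`),
`Pool.Agent.H11.PP.Stk2` (`Top`), `Pool.Agent.K4H74.SC.Core` and `Pool.Agent.K4H77.SL.Def` (Stark's
conjecture; `S` is the set of the infinite places). No case of the conjecture is assumed.
-/

set_option autoImplicit false

namespace Pool.Agent.Results.MP_46b841_nt.WhichDegrees

open NumberField Pool.Agent.H11.PP Pool.Agent.K4H74 Pool.Agent.K4H74.SK Pool.Agent.K4H26.TC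
  Pool.Agent.H541R3.ART

/-- **Which degrees suffice for solvable extensions.** Let `D` be any set of natural numbers.

(1) The following are equivalent:
* every irreducible character of every finite solvable group `Γ` is an integral combination of
  linear characters of `Γ` and of characters which are induced from irreducible characters, with
  degrees in `D`, of subgroups of `Γ`;
* the same for the Galois groups of all solvable extensions `N / K` of number fields (here the
  characters come from linear characters over `K` and from irreducible characters with degrees in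
  `D` over the fields between `K` and `N`);
* the same for combinations with complex coefficients;
* `D` contains `1` or all the powers `p ^ k > 1` of prime numbers.
The first possibility is Brauer's theorem. So the characters of prime power degree `> 1` suffice, and
no prime power can be left out, if one does not use abelian characters over larger base fields.

(2) Stark's conjecture (`c` is the system of leading coefficients of the Artin L-functions at `0`;
every character `χ` has exactly one defect `d(χ)`, with `A(χ, φ)^σ = d(χ) A(χ^σ, φ)` for all `φ`).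
Let `D` be a set as in (1), let `N / K` be a solvable extension of number fields and let `H` be any
group of complex numbers which contains the defects of the linear characters of `Gal(N/K)` (for
`K = ℚ` they are known to be `1`) and the defects of the irreducible characters with degrees in `D`
of the groups `Gal(N/F)`, for the fields `F` between `K` and `N`. Then `H` contains the defects of
all characters of all the groups `Gal(N/F)`. -/
theorem result (D : Set ℕ) :
    -- (1) the criterion
    List.TFAE [
      ∀ (Γ : Type) [Group Γ] [Finite Γ], Group.IsSolvable Γ →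
        Irr Γ ⊆ AddSubgroup.closure (Fam D Γ),
      ∀ E : Ext, Group.IsSolvable (G E) → Irr (G E) ⊆ AddSubgroup.closure (Fam D (G E)),
      ∀ E : Ext, Group.IsSolvable (G E) → Irr (G E) ⊆ Submodule.span ℂ (Fam D (G E)),
      1 ∈ D ∨ ∀ p k : ℕ, p.Prime → 0 < k → p ^ k ∈ D] ∧
    -- (2) Stark's conjecture
    (∃ c : Pair → ℂ, IsLeading c) ∧ ∀ c : Pair → ℂ, IsLeading c → ∀ σ : ℂ ≃+* ℂ,
      (∀ (E : Ext) (χ : G E → ℂ), IsChr χ → ∃! d : ℂˣ, IsDefect c σ χ d) ∧
      ((1 ∈ D ∨ ∀ p k : ℕ, p.Prime → 0 < k → p ^ k ∈ D) →
        ∀ E : Ext, Group.IsSolvable (G E) → ∀ H : Subgroup ℂˣ,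
          (∀ ψ : G E →* ℂˣ, In c σ H (lin ψ)) →
          (∀ F : IntermediateField E.K E.L, ∀ χ ∈ Irr (G (Top E F)), (∃ d ∈ D, χ 1 = (d : ℂ)) →
            In c σ H χ) →
          ∀ (F : IntermediateField E.K E.L) (χ : G (Top E F) → ℂ), IsChr χ → In c σ H χ) := by
  refine ⟨degrees D, exists_isLeading,
    fun c hc σ => ⟨fun E χ hχ => existsUnique_defect hc σ hχ, ?_⟩⟩
  intro hD E hs H ha hb F χ hχ d hd
  refine (modH_iff hc σ H hχ hd).mp ?_
  have key := fam_mem (K := E.K) (N := E.L) (modH hc σ H) ⊥ hD hs ?_ ?_ F (isChr_iff.mp hχ)
  · exact Subgroup.mem_bot.mp key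
  · intro l
    rw [Subgroup.mem_bot]
    exact modH_one hc σ H (E := E) (isChr_lin (E := E) l) (ha l)
  · intro F χ hχ hd
    rw [Subgroup.mem_bot]
    have h1 : IsChr (G := G (Top E F)) χ := by
      obtain ⟨n, ρ, -, hρ⟩ := hχ
      exact isChr_iff.mpr ⟨_, inferInstance, inferInstance, inferInstance, ρ, hρ⟩
    exact modH_one hc σ H (E := Top E F) h1 (hb F χ hχ hd)

end Pool.Agent.Results.MP_46b841_nt.WhichDegrees
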